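import Pool.Agent.Helper41.LD6.Defs

/-!
# Project LD6, block T_phase: the number of the steps in a phase
-/

set_option autoImplicit false

namespace Pool.Agent.Helper90.LD6

open Set MeasureTheory Filter Topology
open Pool.Agent.Helper41.LD (Kk)
open Pool.Agent.Helper41.LD3 (ll ll_succ ll_pos)
open Pool.Agent.Helper41.LD6

variable {F : Pm} {K : ℕ} {Θ a₀ ℓst a ℓ : ℝ}

lemma Vf_mul (hF : F.Ok) (h1 : F.x₁ ≤ a) (n Λ : ℕ) : Vf F.A₀ n a * 2 ^ Λ ≤ Vf F.A₀ (n + F.X * Λ) a := by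
  have hA := hF.hA
  have hx := hF.h1
  have ha : 1 < a := hx.trans_le h1
  unfold Vf
  have hp : (2 : ℝ) ^ Λ ≤ a ^ (F.X * Λ) := by
    rw [pow_mul]
    exact pow_le_pow_left₀ (by norm_num) (hF.hx1.trans (pow_le_pow_left₀ (by linarith) h1 _)) _
  rcases Nat.eq_zero_or_pos n with rfl | hn
  · simp only [Nat.cast_zero, mul_zero, zero_mul]
    positivity
  · have e1 : n + F.X * Λ - 1 = (n - 1) + F.X * Λ := by omega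
    rw [e1, pow_add]
    have h2 : (n : ℝ) ≤ ((n + F.X * Λ : ℕ) : ℝ) := by exact_mod_cast Nat.le_add_right _ _
    have h3 : 0 ≤ a ^ (n - 1) := by positivity
    calc F.A₀ * n * a ^ (n - 1) * 2 ^ Λ ≤ F.A₀ * ((n + F.X * Λ : ℕ) : ℝ) * a ^ (n - 1) * a ^ (F.X * Λ) := by
          refine mul_le_mul ?_ hp (by positivity) (by positivity)
          exact mul_le_mul_of_nonneg_right (mul_le_mul_of_nonneg_left h2 hA.le) h3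
      _ = _ := by ring

lemma Tt_ne (hF : F.Ok) (h1 : F.x₁ ≤ a) (hℓ : 0 < ℓ) (Θ : ℝ) : {n : ℕ | Θ ≤ Vf F.A₀ n a * ℓ}.Nonempty := by
  have hA := hF.hA
  have ha : 1 < a := hF.h1.trans_le h1
  obtain ⟨n, hn⟩ := exists_nat_ge (Θ / (F.A₀ * ℓ))
  refine ⟨n, ?_⟩
  rw [div_le_iff₀ (by positivity)] at hn
  show Θ ≤ F.A₀ * n * a ^ (n - 1) * ℓ
  have h2 : 1 ≤ a ^ (n - 1) := one_le_pow₀ ha.le
  have h3 : 0 ≤ F.A₀ * n * ℓ := by positivity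
  nlinarith

lemma block_le (hF : F.Ok) (h1 : F.x₁ ≤ a) (hℓ : 0 < ℓ) (Θ : ℝ) (Λ : ℕ) :
    Tt F.A₀ Θ a (ℓ / 2 ^ Λ) ≤ Tt F.A₀ Θ a ℓ + F.X * Λ := by
  have hs : Θ ≤ Vf F.A₀ (Tt F.A₀ Θ a ℓ) a * ℓ := Nat.sInf_mem (Tt_ne hF h1 hℓ Θ)
  refine Nat.sInf_le ?_
  show Θ ≤ Vf F.A₀ (Tt F.A₀ Θ a ℓ + F.X * Λ) a * (ℓ / 2 ^ Λ)
  have hp : (0 : ℝ) < 2 ^ Λ := by positivity
  have h2 := Vf_mul hF h1 (Tt F.A₀ Θ a ℓ) Λ
  calc Θ ≤ Vf F.A₀ (Tt F.A₀ Θ a ℓ) a * ℓ := hs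
    _ = Vf F.A₀ (Tt F.A₀ Θ a ℓ) a * 2 ^ Λ * (ℓ / 2 ^ Λ) := by field_simp
    _ ≤ _ := mul_le_mul_of_nonneg_right h2 (by positivity)

lemma Kk_phase (K₀ : ℕ) {σ k : ℕ} (h1 : 2 ^ σ - 1 ≤ k) (h2 : k < 2 ^ (σ + 1) - 1) : Kk K₀ k = K₀ + σ := by
  unfold Kk
  have h3 : 1 ≤ 2 ^ σ := Nat.one_le_two_pow
  congr 1
  rw [Nat.log_eq_iff (Or.inr ⟨by norm_num, by omega⟩)]
  constructor
  · omega
  · omega

/-- the number of the steps in a phase -/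
theorem T_phase (hF : F.Ok) (S : F.St K a₀ ℓst) {ℓ₀ : ℝ} (hℓ₀ : 0 < ℓ₀) (K₀ : ℕ) {σ k : ℕ} (hKK : K = K₀ + σ) (hst : ℓst = ll 1 K₀ ℓ₀ (2 ^ σ - 1))
    (h1 : 2 ^ σ - 1 ≤ k) (h2 : k ≤ 2 ^ (σ + 1) - 1) : F.T K a₀ ℓst (ll 1 K₀ ℓ₀ k) ≤ 2 ^ K * (F.X * K ^ 3) := by
  have key : ∀ d, 2 ^ σ - 1 + d ≤ 2 ^ (σ + 1) - 1 → Tt F.A₀ (F.Th K) a₀ (ll 1 K₀ ℓ₀ (2 ^ σ - 1 + d)) ≤
      Tt F.A₀ (F.Th K) a₀ ℓst + d * (F.X * K ^ 3) := by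
    intro d
    induction d with
    | zero => intro _; simp [hst]
    | succ d ih =>
      intro hd
      have h3 := block_le hF S.lo (ll_pos (κ := 1) hℓ₀ K₀ (2 ^ σ - 1 + d)) (F.Th K) (K ^ 3)
      have e1 : ll 1 K₀ ℓ₀ (2 ^ σ - 1 + d + 1) = ll 1 K₀ ℓ₀ (2 ^ σ - 1 + d) / 2 ^ (K ^ 3) := by
        rw [ll_succ, Kk_phase K₀ (Nat.le_add_right _ _) (by omega), hKK]
      rw [← e1] at h3
      have h4 := ih (by omega)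
      have h5 : (d + 1) * (F.X * K ^ 3) = d * (F.X * K ^ 3) + F.X * K ^ 3 := by ring
      rw [h5, ← add_assoc (2 ^ σ - 1)]
      omega
  obtain ⟨d, rfl⟩ := Nat.exists_eq_add_of_le h1
  have h3 := key d h2
  have h4 : d ≤ 2 ^ K := by
    have h5 : d ≤ 2 ^ σ := by
      have h6 : 1 ≤ 2 ^ σ := Nat.one_le_two_pow
      rw [pow_succ] at h2
      omega
    exact h5.trans (Nat.pow_le_pow_right (by norm_num) (by omega))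
  have h6 := Nat.mul_le_mul_right (F.X * K ^ 3) h4
  unfold Pm.T
  omega

end Pool.Agent.Helper90.LD6
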